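import Mathlib

/-!
# Leonard pairs and the equitable presentation of `U_q(sl_2)`: definitions and the irreducibility of the
# action of a Leonard pair
-/

set_option autoImplicit false

namespace Pool.Agent.X220.LP

variable {K : Type*} [Field K] {V : Type*} [AddCommGroup V] [Module K V]

/-- Irreducible tridiagonal matrices. -/
def IrredTridiagonal {n : ℕ} (M : Matrix (Fin n) (Fin n) K) : Prop :=
  (∀ i j : Fin n, (i : ℕ) + 1 < j ∨ (j : ℕ) + 1 < i → M i j = 0) ∧
  ∀ i j : Fin n, (i : ℕ) + 1 = j ∨ (j : ℕ) + 1 = i → M i j ≠ 0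

/-- Leonard pairs on a space of dimension `d + 1`. -/
def LeonardPair (d : ℕ) (A B : Module.End K V) : Prop :=
  (∃ v : Module.Basis (Fin (d + 1)) K V, (LinearMap.toMatrix v v A).IsDiag ∧
    IrredTridiagonal (LinearMap.toMatrix v v B)) ∧
  ∃ v : Module.Basis (Fin (d + 1)) K V, (LinearMap.toMatrix v v B).IsDiag ∧
    IrredTridiagonal (LinearMap.toMatrix v v A)

/-- The generators `X`, `X⁻¹`, `Y`, `Z` of `U_q(sl_2)`. -/
inductive Gen : Type
  | X | Xinv | Y | Z

open FreeAlgebra in
/-- The equitable relations. -/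
inductive Rel (K : Type*) [Field K] (q : K) : FreeAlgebra K Gen → FreeAlgebra K Gen → Prop
  | inv₁ : Rel K q (ι K Gen.X * ι K Gen.Xinv) 1
  | inv₂ : Rel K q (ι K Gen.Xinv * ι K Gen.X) 1
  | XY : Rel K q (q • (ι K Gen.X * ι K Gen.Y) - q⁻¹ • (ι K Gen.Y * ι K Gen.X)) ((q - q⁻¹) • 1)
  | YZ : Rel K q (q • (ι K Gen.Y * ι K Gen.Z) - q⁻¹ • (ι K Gen.Z * ι K Gen.Y)) ((q - q⁻¹) • 1)
  | ZX : Rel K q (q • (ι K Gen.Z * ι K Gen.X) - q⁻¹ • (ι K Gen.X * ι K Gen.Z)) ((q - q⁻¹) • 1)

/-- `U_q(sl_2)` in the equitable presentation. -/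
abbrev Uq (K : Type*) [Field K] (q : K) : Type _ := RingQuot (Rel K q)

/-- The generators of `U_q(sl_2)`. -/
def gen (K : Type*) [Field K] (q : K) (g : Gen) : Uq K q := RingQuot.mkAlgHom K (Rel K q) (FreeAlgebra.ι K g)

/-- The module structure given by `ρ` is irreducible: `V ≠ 0` and the only submodules are `0` and `V`. -/
def IsIrreducible {q : K} (ρ : Uq K q →ₐ[K] Module.End K V) : Prop :=
  Nontrivial V ∧ ∀ W : Submodule K V, (∀ x : Uq K q, ∀ w ∈ W, ρ x w ∈ W) → W = ⊥ ∨ W = ⊤

/-! ### Leonard pairs act irreducibly -/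

theorem eigen_zero {n : ℕ} {M : Matrix (Fin n) (Fin n) K} (hM : IrredTridiagonal M) {x : Fin n → K}
    {μ : K} (hx : M.mulVec x = μ • x) (h0 : ∀ i : Fin n, (i : ℕ) = 0 → x i = 0) : x = 0 := by
  have key : ∀ k : ℕ, ∀ i : Fin n, (i : ℕ) ≤ k → x i = 0 := by
    intro k
    induction k with
    | zero => intro i hi; exact h0 i (by omega)
    | succ k ih =>
      intro i hi
      rcases Nat.lt_or_ge (i : ℕ) (k + 1) with h | h
      · exact ih i (by omega)
      · have hik : (i : ℕ) = k + 1 := by omega
        have hk : k < n := by omega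
        have h1 := congrFun hx ⟨k, hk⟩
        rw [Matrix.mulVec, dotProduct, Finset.sum_eq_single i] at h1
        · rw [Pi.smul_apply, ih ⟨k, hk⟩ le_rfl, smul_zero] at h1
          exact (mul_eq_zero.1 h1).resolve_left (hM.2 _ _ (Or.inl hik.symm))
        · intro j _ hj
          rcases Nat.lt_or_ge (j : ℕ) (k + 1) with h2 | h2
          · rw [ih j (by omega), mul_zero]
          · have : (j : ℕ) ≠ i := fun h => hj (Fin.ext h)
            rw [hM.1 _ _ (Or.inl (by show k + 1 < (j : ℕ); omega)), zero_mul]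
        · intro h; exact absurd (Finset.mem_univ i) h
  funext i
  exact key i i le_rfl

theorem eigen_zero' {d : ℕ} {A : Module.End K V} (v : Module.Basis (Fin (d + 1)) K V)
    (hM : IrredTridiagonal (LinearMap.toMatrix v v A)) {x : V} {μ : K} (hx : A x = μ • x)
    (h0 : v.repr x 0 = 0) : x = 0 := by
  have h1 : (LinearMap.toMatrix v v A).mulVec (v.repr x) = μ • (v.repr x : Fin (d + 1) → K) := by
    rw [LinearMap.toMatrix_mulVec_repr, hx, map_smul]
    rfl
  have h2 := eigen_zero hM h1 (fun i hi => by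
    have : i = 0 := Fin.ext hi
    rw [this, h0])
  apply v.repr.injective
  rw [map_zero]
  exact DFunLike.coe_injective h2

theorem diag_apply {d : ℕ} {A : Module.End K V} (v : Module.Basis (Fin (d + 1)) K V)
    (hA : (LinearMap.toMatrix v v A).IsDiag) (i : Fin (d + 1)) :
    A (v i) = LinearMap.toMatrix v v A i i • v i := by
  apply v.repr.injective
  ext j
  rw [map_smul, Finsupp.smul_apply, v.repr_self, Finsupp.single_apply, ← LinearMap.toMatrix_apply]
  split_ifs with h
  · rw [h, smul_eq_mul, mul_one]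
  · rw [smul_zero]
    exact hA (fun h' => h h'.symm)

/-- The eigenvalues are distinct. -/
theorem eigen_distinct {d : ℕ} {A : Module.End K V} (v w : Module.Basis (Fin (d + 1)) K V)
    (hv : (LinearMap.toMatrix v v A).IsDiag) (hw : IrredTridiagonal (LinearMap.toMatrix w w A)) :
    Function.Injective fun i => LinearMap.toMatrix v v A i i := by
  intro i j hij
  by_contra hne
  have hi := diag_apply v hv i
  have hj := diag_apply v hv j
  have hij' : LinearMap.toMatrix v v A i i = LinearMap.toMatrix v v A j j := hij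
  set x : V := w.repr (v j) 0 • v i - w.repr (v i) 0 • v j with hx
  have h1 : A x = LinearMap.toMatrix v v A i i • x := by
    rw [hx, map_sub, map_smul, map_smul, hi, hj, ← hij', smul_sub, smul_comm, smul_comm (w.repr (v i) 0)]
  have h2 : w.repr x 0 = 0 := by
    rw [hx, map_sub, map_smul, map_smul, Finsupp.sub_apply, Finsupp.smul_apply, Finsupp.smul_apply,
      smul_eq_mul, smul_eq_mul, mul_comm, sub_self]
  have h3 := eigen_zero' w hw h1 h2
  have h4 : v.repr x i = 0 := by rw [h3, map_zero]; rfl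
  rw [hx, map_sub, map_smul, map_smul, Finsupp.sub_apply, Finsupp.smul_apply, Finsupp.smul_apply,
    v.repr_self, v.repr_self, Finsupp.single_eq_same, Finsupp.single_eq_of_ne hne,
    smul_zero, sub_zero, smul_eq_mul, mul_one] at h4
  exact v.ne_zero j (eigen_zero' w hw hj h4)

/-- A subspace invariant under a diagonal map with distinct eigenvalues contains the components of its
elements. -/
theorem component_mem {d : ℕ} {A : Module.End K V} (v : Module.Basis (Fin (d + 1)) K V)
    (hv : (LinearMap.toMatrix v v A).IsDiag)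
    (hinj : Function.Injective fun i => LinearMap.toMatrix v v A i i) {W : Submodule K V}
    (hW : ∀ w ∈ W, A w ∈ W) {w : V} (hw : w ∈ W) {i : Fin (d + 1)} (hi : v.repr w i ≠ 0) :
    v i ∈ W := by
  classical
  set α : Fin (d + 1) → K := fun i => LinearMap.toMatrix v v A i i with hα
  set p : Polynomial K := ∏ j ∈ Finset.univ.erase i, (Polynomial.X - Polynomial.C (α j)) with hp
  have hinv : ∀ (f : Polynomial K) (x : V), x ∈ W → Polynomial.aeval A f x ∈ W := by
    intro f x hx
    induction f using Polynomial.induction_on' with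
    | add f g hf hg => rw [map_add]; exact W.add_mem hf hg
    | monomial n c =>
      rw [Polynomial.aeval_monomial]
      show (algebraMap K (Module.End K V) c) ((A ^ n) x) ∈ W
      rw [Module.algebraMap_end_apply]
      refine W.smul_mem _ ?_
      induction n with
      | zero => exact hx
      | succ n ih => rw [pow_succ']; exact hW _ ih
  have hpv : ∀ k, Polynomial.aeval A p (v k) = p.eval (α k) • v k := by
    intro k
    refine Module.End.aeval_apply_of_hasEigenvector ⟨?_, v.ne_zero k⟩
    rw [Module.End.mem_eigenspace_iff]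
    exact diag_apply v hv k
  have h1 : Polynomial.aeval A p w = (v.repr w i * p.eval (α i)) • v i := by
    conv_lhs => rw [← v.sum_repr w]
    rw [map_sum, Finset.sum_eq_single i]
    · rw [map_smul, hpv, smul_smul]
    · intro k _ hk
      rw [map_smul, hpv]
      have : p.eval (α k) = 0 := by
        rw [hp, Polynomial.eval_prod]
        refine Finset.prod_eq_zero (Finset.mem_erase.2 ⟨hk, Finset.mem_univ k⟩) ?_
        simp
      rw [this, zero_smul, smul_zero]
    · intro h; exact absurd (Finset.mem_univ i) h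
  have h2 : p.eval (α i) ≠ 0 := by
    rw [hp, Polynomial.eval_prod, Finset.prod_ne_zero_iff]
    intro j hj
    rw [Polynomial.eval_sub, Polynomial.eval_X, Polynomial.eval_C, sub_ne_zero]
    intro h
    exact (Finset.mem_erase.1 hj).1 (hinj h).symm
  have h3 := hinv p w hw
  rw [h1] at h3
  exact (W.smul_mem_iff (mul_ne_zero hi h2)).1 h3

/-- A Leonard pair has no proper invariant subspaces. -/
theorem irreducible {d : ℕ} {A B : Module.End K V} (h : LeonardPair d A B) (W : Submodule K V)
    (hA : ∀ w ∈ W, A w ∈ W) (hB : ∀ w ∈ W, B w ∈ W) : W = ⊥ ∨ W = ⊤ := by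
  obtain ⟨⟨v, hv, hvB⟩, ⟨w, -, hwA⟩⟩ := h
  have hinj := eigen_distinct v w hv hwA
  rcases eq_or_ne W ⊥ with h0 | h0
  · exact Or.inl h0
  right
  obtain ⟨x, hx, hx0⟩ := (Submodule.ne_bot_iff W).1 h0
  obtain ⟨i, hi⟩ : ∃ i, v.repr x i ≠ 0 := by
    by_contra hcon
    push Not at hcon
    apply hx0
    apply v.repr.injective
    ext j
    rw [hcon j, map_zero]
    rfl
  have hvi : v i ∈ W := component_mem v hv hinj hA hx hi
  have hstep : ∀ i j : Fin (d + 1), (i : ℕ) + 1 = j ∨ (j : ℕ) + 1 = i → v j ∈ W → v i ∈ W := by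
    intro i j hij hj
    refine component_mem v hv hinj hA (hB _ hj) (i := i) ?_
    rw [← LinearMap.toMatrix_apply]
    exact hvB.2 i j hij
  have hup : ∀ k : ℕ, ∀ j : Fin (d + 1), (j : ℕ) = i + k → v j ∈ W := by
    intro k
    induction k with
    | zero =>
      intro j hj
      rwa [Fin.ext (show (j : ℕ) = i from hj)]
    | succ k ih =>
      intro j hj
      exact hstep j ⟨i + k, by omega⟩ (Or.inr (by show (i : ℕ) + k + 1 = j; omega)) (ih _ rfl)
  have hdown : ∀ k : ℕ, ∀ j : Fin (d + 1), (j : ℕ) + k = i → v j ∈ W := by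
    intro k
    induction k with
    | zero =>
      intro j hj
      rwa [Fin.ext (show (j : ℕ) = i from hj)]
    | succ k ih =>
      intro j hj
      exact hstep j ⟨j + 1, by omega⟩ (Or.inl rfl) (ih _ (by show (j : ℕ) + 1 + k = i; omega))
  rw [eq_top_iff, ← v.span_eq, Submodule.span_le]
  rintro _ ⟨j, rfl⟩
  rcases le_total (i : ℕ) j with h1 | h1
  · exact hup (j - i) j (by omega)
  · exact hdown (i - j) j (by omega)

/-- The basis of `K ^ n` given by the columns of an invertible matrix `P`. -/
noncomputable def colBasis {n : ℕ} (P Q : Matrix (Fin n) (Fin n) K) (h1 : P * Q = 1) (h2 : Q * P = 1) :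
    Module.Basis (Fin n) K (Fin n → K) :=
  Module.Basis.ofEquivFun
    { toFun := Q.mulVec
      invFun := P.mulVec
      map_add' := fun x y => Matrix.mulVec_add Q x y
      map_smul' := fun c x => Matrix.mulVec_smul Q c x
      left_inv := fun x => by rw [Matrix.mulVec_mulVec, h1, Matrix.one_mulVec]
      right_inv := fun x => by rw [Matrix.mulVec_mulVec, h2, Matrix.one_mulVec] }

theorem toMatrix_colBasis {n : ℕ} (P Q : Matrix (Fin n) (Fin n) K) (h1 : P * Q = 1) (h2 : Q * P = 1)
    (M : Matrix (Fin n) (Fin n) K) :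
    LinearMap.toMatrix (colBasis P Q h1 h2) (colBasis P Q h1 h2) (Matrix.toLin' M) = Q * M * P := by
  ext i j
  rw [LinearMap.toMatrix_apply]
  have hj : colBasis P Q h1 h2 j = P.mulVec (Pi.single j 1) := by
    unfold colBasis
    rw [Module.Basis.coe_ofEquivFun]
    rfl
  have hr : ∀ x, (colBasis P Q h1 h2).repr x i = Q.mulVec x i := fun x => by
    unfold colBasis
    rw [Module.Basis.ofEquivFun_repr_apply]
    rfl
  rw [hr, hj, Matrix.toLin'_apply, Matrix.mulVec_mulVec, Matrix.mulVec_mulVec,
    Matrix.mulVec_single_one, Matrix.mul_assoc]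
  rfl

end Pool.Agent.X220.LP
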